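import Pool.Agent.H.MP_f8b95a_co.Defs

namespace Pool.Agent.H.MP_f8b95a_co
open Finset

variable {V : Type*} [DecidableEq V]

def Cov (G : SimpleGraph V) (X : Finset V) : Prop :=
  ∃ σ : V → V, ∀ x ∈ X, σ x ∈ X ∧ σ (σ x) = x ∧ G.Adj x (σ x)

lemma even_of_inv {X : Finset V} (σ : V → V) (h : ∀ x ∈ X, σ x ∈ X ∧ σ (σ x) = x ∧ σ x ≠ x) :
    Even X.card := by
  have := sum_involution (s := X) (f := fun _ => (1 : ZMod 2)) (fun a _ => σ a)
    (fun _ _ => by decide) (fun a ha _ => (h a ha).2.2) (fun a ha => (h a ha).1)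
    (fun a ha => (h a ha).2.1)
  rw [sum_const, nsmul_eq_mul, mul_one] at this
  exact (ZMod.natCast_eq_zero_iff_even).1 this

lemma Cov.union {G : SimpleGraph V} {X Y : Finset V} (hX : Cov G X) (hY : Cov G Y)
    (h : Disjoint X Y) : Cov G (X ∪ Y) := by
  obtain ⟨σ, hσ⟩ := hX
  obtain ⟨τ, hτ⟩ := hY
  refine ⟨fun x => if x ∈ X then σ x else τ x, fun x hx => ?_⟩
  by_cases a : x ∈ X
  · obtain ⟨b1, b2, b3⟩ := hσ x a
    simp [a, b1, b2, b3]
  · have a' : x ∈ Y := (mem_union.1 hx).resolve_left a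
    obtain ⟨b1, b2, b3⟩ := hτ x a'
    have : τ x ∉ X := fun c => disjoint_left.1 h c b1
    simp [a, b1, b2, b3, this]

lemma Cov.empty (G : SimpleGraph V) : Cov G ∅ := ⟨id, by simp⟩

lemma Cov.biUnion {G : SimpleGraph V} {ι : Type*} [DecidableEq ι] (s : Finset ι)
    (X : ι → Finset V) (h : ∀ i ∈ s, Cov G (X i))
    (hd : ∀ i ∈ s, ∀ j ∈ s, i ≠ j → Disjoint (X i) (X j)) : Cov G (s.biUnion X) := by
  induction s using Finset.induction_on with
  | empty => simpa using Cov.empty G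
  | insert a s ha ih =>
    rw [biUnion_insert]
    refine (h a (mem_insert_self _ _)).union (ih (fun i hi => h i (mem_insert_of_mem hi))
      (fun i hi j hj => hd i (mem_insert_of_mem hi) j (mem_insert_of_mem hj))) ?_
    rw [disjoint_biUnion_right]
    exact fun i hi => hd a (mem_insert_self _ _) i (mem_insert_of_mem hi) (fun e => ha (e ▸ hi))

lemma Cov.pair {G : SimpleGraph V} {x y : V} (h : G.Adj x y) : Cov G {x, y} := by
  refine ⟨Equiv.swap x y, fun z hz => ?_⟩
  rcases mem_insert.1 hz with rfl | hz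
  · simp [h]
  · rw [mem_singleton.1 hz]; simp [h.symm]

lemma Cov.clique {G : SimpleGraph V} (n : ℕ) : ∀ X : Finset V, X.card = 2 * n →
    (∀ x ∈ X, ∀ y ∈ X, x ≠ y → G.Adj x y) → Cov G X := by
  induction n with
  | zero => intro X h _; rw [card_eq_zero.1 h]; exact Cov.empty G
  | succ n ih =>
    intro X h hc
    obtain ⟨x, hx, y, hy, hxy⟩ := one_lt_card.1 (show 1 < X.card by omega)
    have hs : ({x, y} : Finset V) ⊆ X := by
      intro z hz; rcases mem_insert.1 hz with rfl | hz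
      · exact hx
      · rw [mem_singleton.1 hz]; exact hy
    rw [← union_sdiff_of_subset hs]
    refine (Cov.pair (hc x hx y hy hxy)).union (ih _ ?_ ?_) disjoint_sdiff
    · rw [card_sdiff_of_subset hs, card_pair hxy]; omega
    · exact fun a ha b hb => hc a (mem_sdiff.1 ha).1 b (mem_sdiff.1 hb).1

lemma Cov.clique' {G : SimpleGraph V} (X : Finset V) (h : Even X.card)
    (hc : ∀ x ∈ X, ∀ y ∈ X, x ≠ y → G.Adj x y) : Cov G X := by
  obtain ⟨n, hn⟩ := h
  exact Cov.clique n X (by omega) hc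

lemma cov_iff [Fintype V] (G : SimpleGraph V) (I : Set V) :
    (∃ W : G.Subgraph, W.IsMatching ∧ I ⊆ W.verts) ↔ ∃ X : Finset V, Cov G X ∧ I ⊆ X := by
  classical
  constructor
  · rintro ⟨W, hW, hI⟩
    have : ∀ x, ∃ y, x ∈ W.verts → W.Adj x y := fun x => by
      by_cases h : x ∈ W.verts
      · obtain ⟨y, hy, -⟩ := hW h
        exact ⟨y, fun _ => hy⟩
      · exact ⟨x, fun h' => absurd h' h⟩
    choose σ hσ using this
    refine ⟨W.verts.toFinset, ⟨σ, fun x hx => ?_⟩, by simpa using hI⟩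
    rw [Set.mem_toFinset] at hx
    have a := hσ x hx
    have b : σ x ∈ W.verts := W.edge_vert a.symm
    exact ⟨Set.mem_toFinset.2 b, (hW b).unique (hσ _ b) a.symm, W.adj_sub a⟩
  · rintro ⟨X, ⟨σ, hσ⟩, hI⟩
    refine ⟨⟨X, fun x y => x ∈ X ∧ y = σ x, ?_, ?_, ⟨?_⟩⟩, ?_, hI⟩
    · rintro x y ⟨a, rfl⟩; exact (hσ x a).2.2
    · rintro x y ⟨a, rfl⟩; exact a
    · rintro x y ⟨a, rfl⟩; exact ⟨(hσ x a).1, (hσ x a).2.1.symm⟩
    · intro x hx
      exact ⟨σ x, ⟨hx, rfl⟩, fun y hy => hy.2⟩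

def Mt (A : ℕ → Set V) (I : Finset V) (f : V → ℕ) : Prop :=
  Set.InjOn f I ∧ ∀ x ∈ I, x ∈ A (f x)

lemma md {A : ℕ → Set V} {X B I : Finset V} {φ ψ : V → ℕ} (hB : B ⊆ X) (hφ : Mt A B φ)
    (hmax : ∀ I' ⊆ X, ∀ f, Mt A I' f → I'.card ≤ B.card) (hI : I ⊆ X) (hψ : Mt A I ψ) :
    ∃ f, Mt A I f ∧ ∀ x ∈ I, f x ∈ B.image φ := by
  classical
  have hall := (Finset.all_card_le_biUnion_card_iff_exists_injective
    (fun x : I => (B.image φ).filter (fun j => x.1 ∈ A j))).1 (fun s => by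
      by_contra c
      set Y := s.map (Function.Embedding.subtype _) with hY
      set N := s.biUnion (fun x : I => (B.image φ).filter (fun j => x.1 ∈ A j)) with hN
      have hYI : Y ⊆ I := fun y hy => by
        obtain ⟨z, -, rfl⟩ := mem_map.1 hy
        exact z.2
      have hYN : ∀ y ∈ Y, ∀ b ∈ B, y ∈ A (φ b) → φ b ∈ N := fun y hy b hb h => by
        obtain ⟨z, hz, rfl⟩ := mem_map.1 hy
        exact mem_biUnion.2 ⟨z, hz, mem_filter.2 ⟨mem_image_of_mem _ hb, h⟩⟩
      set B1 := B.filter (fun b => φ b ∉ N) with hB1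
      have hd : ∀ b ∈ B1, b ∉ Y := fun b hb hy =>
        (mem_filter.1 hb).2 (hYN b hy b (mem_filter.1 hb).1 (hφ.2 b (mem_filter.1 hb).1))
      have h1 : (B.filter (fun b => φ b ∈ N)).card ≤ N.card :=
        card_le_card_of_injOn φ (fun b hb => (mem_filter.1 hb).2)
          (hφ.1.mono (fun b hb => (mem_filter.1 hb).1))
      have h2 := card_filter_add_card_filter_not (s := B) (fun b => φ b ∈ N)
      have h3 := hmax (Y ∪ B1) (union_subset (hYI.trans hI) ((filter_subset _ _).trans hB))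
        (fun x => if x ∈ Y then ψ x else φ x) ⟨fun x hx y hy e => by
          have hx' := mem_union.1 hx
          have hy' := mem_union.1 hy
          by_cases a : x ∈ Y <;> by_cases b : y ∈ Y <;> simp only [a, b, if_true, if_false] at e
          · exact hψ.1 (hYI a) (hYI b) e
          · have y1 := mem_filter.1 (hy'.resolve_left b)
            exact absurd (hYN x a y y1.1 (e ▸ hψ.2 x (hYI a))) y1.2
          · have x1 := mem_filter.1 (hx'.resolve_left a)
            exact absurd (hYN y b x x1.1 (e.symm ▸ hψ.2 y (hYI b))) x1.2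
          · exact hφ.1 (mem_filter.1 (hx'.resolve_left a)).1 (mem_filter.1 (hy'.resolve_left b)).1 e,
        fun x hx => by
          by_cases a : x ∈ Y
          · simpa [a] using hψ.2 x (hYI a)
          · simpa [a] using hφ.2 x (mem_filter.1 ((mem_union.1 hx).resolve_left a)).1⟩
      rw [card_union_of_disjoint (disjoint_right.2 hd), hY, card_map] at h3
      rw [← hB1] at h2
      omega)
  obtain ⟨f, f1, f2⟩ := hall
  refine ⟨fun x => if h : x ∈ I then f ⟨x, h⟩ else 0, ⟨fun x hx y hy e => ?_, fun x hx => ?_⟩,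
    fun x hx => ?_⟩
  · have hx' : x ∈ I := hx
    have hy' : y ∈ I := hy
    simp only [hx', hy', dif_pos] at e
    exact congrArg Subtype.val (f1 e)
  · simp only [hx, dif_pos]; exact (mem_filter.1 (f2 ⟨x, hx⟩)).2
  · simp only [hx, dif_pos]; exact (mem_filter.1 (f2 ⟨x, hx⟩)).1

lemma trans_iff {M : Matroid V} (h : IsTransversal M) :
    ∃ A : ℕ → Set V, ∀ I : Finset V, M.Indep I ↔ ∃ f, Mt A I f := by
  obtain ⟨m, A, hA⟩ := h
  refine ⟨fun j => if h : j < m then A ⟨j, h⟩ else ∅, fun I => (hA I).trans ⟨?_, ?_⟩⟩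
  · rintro ⟨f, f1, f2⟩
    refine ⟨fun x => if h : x ∈ I then (f ⟨x, h⟩).val else 0, fun x hx y hy e => ?_, fun x hx => ?_⟩
    · have hx' : x ∈ I := hx
      have hy' : y ∈ I := hy
      simp only [hx', hy', dif_pos] at e
      exact congrArg Subtype.val (f1 (Fin.ext e))
    · simp only [hx, dif_pos, Fin.is_lt]; exact f2 ⟨x, hx⟩
  · rintro ⟨f, f1, f2⟩
    have hlt : ∀ x : (I : Set V), f x < m := fun x => by
      by_contra c
      have := f2 x x.2
      simp [c] at this
    refine ⟨fun x => ⟨f x, hlt x⟩, fun x y e => Subtype.ext (f1 x.2 y.2 (Fin.mk.inj e)), fun x => ?_⟩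
    have := f2 x x.2
    simpa [hlt x] using this

variable [Fintype V] {M : Matroid V}

noncomputable def rk (M : Matroid V) : ℕ := M.eRank.toNat

omit [DecidableEq V] [Fintype V] in
lemma base_card {B : Finset V} (h : M.IsBase B) : B.card = rk M := by
  unfold rk; rw [← h.encard_eq_eRank]; simp

lemma exists_base {I : Finset V} (h : M.Indep I) : ∃ B : Finset V, M.IsBase B ∧ I ⊆ B := by
  classical
  obtain ⟨B, hB, hI⟩ := h.exists_isBase_superset
  exact ⟨B.toFinset, by simpa using hB, fun x hx => by simpa using hI hx⟩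

lemma indep_card {I : Finset V} (h : M.Indep I) : I.card ≤ rk M := by
  obtain ⟨B, hB, hI⟩ := exists_base h
  rw [← base_card hB]; exact card_le_card hI

lemma base_of_card {I : Finset V} (h : M.Indep I) (hc : rk M ≤ I.card) : M.IsBase I := by
  obtain ⟨B, hB, hI⟩ := exists_base h
  rwa [eq_of_subset_of_card_le hI (by rw [base_card hB]; exact hc)]

open Classical in
noncomputable def K (M : Matroid V) : Finset V := univ.filter M.IsColoop

open Classical in
noncomputable def cls (M : Matroid V) (e : V) : Finset V := univ.filter (· ∈ seriesClass M e)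

noncomputable def C (M : Matroid V) : Finset (Finset V) := (K M)ᶜ.image (cls M)

omit [DecidableEq V] in
lemma forall_base {p : Set V → Prop} :
    (∀ B : Set V, M.IsBase B → p B) ↔ ∀ B : Finset V, M.IsBase B → p B := by
  classical
  refine ⟨fun h B hB => h B hB, fun h B hB => ?_⟩
  simpa using h B.toFinset (by simpa using hB)

omit [DecidableEq V] in
lemma mem_K {e : V} : e ∈ K M ↔ ∀ B : Finset V, M.IsBase B → e ∈ B := by
  classical
  rw [K, mem_filter, Matroid.isColoop_iff_forall_mem_isBase]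
  simp only [mem_univ, true_and]
  exact forall_base (p := fun B => e ∈ B)

omit [DecidableEq V] in
lemma not_mem_K {e : V} : e ∉ K M ↔ ∃ B : Finset V, M.IsBase B ∧ e ∉ B := by
  rw [mem_K]; push Not; rfl

omit [DecidableEq V] in
lemma K_sub {B : Finset V} (h : M.IsBase B) : K M ⊆ B := fun _ he => mem_K.1 he B h

omit [DecidableEq V] in
lemma mem_cls {e f : V} (he : e ∉ K M) :
    f ∈ cls M e ↔ f = e ∨ (f ∉ K M ∧ ∀ B : Finset V, M.IsBase B → e ∈ B ∨ f ∈ B) := by
  classical
  rw [cls, mem_filter]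
  simp only [mem_univ, true_and, seriesClass, Set.mem_setOf_eq]
  by_cases hfe : f = e
  · simp [hfe]
  simp only [hfe, false_or]
  rw [Matroid.isCocircuit_iff_minimal]
  have e1 : (∀ B : Set V, M.IsBase B → (({e, f} : Set V) ∩ B).Nonempty) ↔
      ∀ B : Finset V, M.IsBase B → e ∈ B ∨ f ∈ B := by
    rw [forall_base]
    refine forall_congr' fun B => imp_congr_right fun _ => ⟨?_, ?_⟩
    · rintro ⟨x, hx | hx, h⟩
      · exact Or.inl (hx ▸ h)
      · exact Or.inr (hx ▸ h)
    · rintro (h | h)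
      · exact ⟨e, Or.inl rfl, h⟩
      · exact ⟨f, Or.inr rfl, h⟩
  constructor
  · intro h
    refine ⟨fun hf => ?_, e1.1 h.1⟩
    have := h.2 (y := {f}) (forall_base.2 fun B hB => ⟨f, rfl, mem_K.1 hf B hB⟩)
      (fun x hx => Or.inr hx)
    exact hfe (this (Or.inl rfl)).symm
  · rintro ⟨hf, h⟩
    refine ⟨e1.2 h, fun Y hY hs => ?_⟩
    obtain ⟨B1, b1, b1'⟩ := not_mem_K.1 he
    obtain ⟨B2, b2, b2'⟩ := not_mem_K.1 hf
    obtain ⟨x, x1, x2⟩ := hY _ b1
    obtain ⟨y, y1, y2⟩ := hY _ b2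
    rintro z (rfl | rfl)
    · rcases hs y1 with rfl | rfl
      · exact y1
      · exact absurd y2 b2'
    · rcases hs x1 with rfl | rfl
      · exact absurd x2 b1'
      · exact x1

omit [DecidableEq V] in
lemma self_mem_cls (e : V) : e ∈ cls M e := by simp [cls, seriesClass]

omit [DecidableEq V] in
lemma cls_notK {e f : V} (he : e ∉ K M) (h : f ∈ cls M e) : f ∉ K M := by
  rcases (mem_cls he).1 h with rfl | h
  · exact he
  · exact h.1

omit [DecidableEq V] in
lemma cls_symm {e f : V} (he : e ∉ K M) (h : f ∈ cls M e) : e ∈ cls M f := by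
  rw [mem_cls (cls_notK he h)]
  rcases (mem_cls he).1 h with rfl | h
  · exact Or.inl rfl
  · exact Or.inr ⟨he, fun B hB => (h.2 B hB).symm⟩

omit [DecidableEq V] in
lemma cls_trans {e f g : V} (he : e ∉ K M) (h : f ∈ cls M e) (h' : g ∈ cls M f) : g ∈ cls M e := by
  have hf := cls_notK he h
  rcases (mem_cls he).1 h with rfl | h
  · exact h'
  rcases (mem_cls hf).1 h' with rfl | h'
  · exact (mem_cls he).2 (Or.inr h)
  by_cases hge : g = e
  · exact (mem_cls he).2 (Or.inl hge)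
  refine (mem_cls he).2 (Or.inr ⟨h'.1, fun B hB => ?_⟩)
  by_contra c
  push Not at c
  have f1 : f ∈ B := (h.2 B hB).resolve_left c.1
  obtain ⟨B', b1, b2⟩ := not_mem_K.1 hf
  obtain ⟨y, hy, hb⟩ := hB.exchange b1 (e := f) ⟨f1, b2⟩
  have hyf : y ≠ f := fun e => hy.2 (e ▸ f1)
  have a1 := (forall_base (p := fun B => e ∈ B ∨ f ∈ B)).2 h.2 _ hb
  have a2 := (forall_base (p := fun B => f ∈ B ∨ g ∈ B)).2 h'.2 _ hb
  simp only [Set.mem_insert_iff, Set.mem_diff, mem_coe, Set.mem_singleton_iff, c.1, c.2, false_and,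
    or_false, not_true, and_false, hyf.symm, false_or] at a1 a2
  exact hge (a2.trans a1.symm)

omit [DecidableEq V] in
lemma cls_eq {e f : V} (he : e ∉ K M) (h : f ∈ cls M e) : cls M f = cls M e := by
  ext g
  exact ⟨cls_trans he h, cls_trans (cls_notK he h) (cls_symm he h)⟩

lemma C_mem {S : Finset V} (hS : S ∈ C M) {x : V} (hx : x ∈ S) : x ∉ K M ∧ cls M x = S := by
  obtain ⟨e, he, rfl⟩ := mem_image.1 hS
  exact ⟨cls_notK (mem_compl.1 he) hx, cls_eq (mem_compl.1 he) hx⟩

lemma C_nonempty {S : Finset V} (hS : S ∈ C M) : S.Nonempty := by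
  obtain ⟨e, -, rfl⟩ := mem_image.1 hS
  exact ⟨e, self_mem_cls e⟩

lemma cls_mem_C {e : V} (he : e ∉ K M) : cls M e ∈ C M := mem_image_of_mem _ (mem_compl.2 he)

lemma C_two {S B : Finset V} (hS : S ∈ C M) (hB : M.IsBase B) {x y : V} (hx : x ∈ S) (hy : y ∈ S)
    (hxy : y ≠ x) (h : x ∉ B) : y ∈ B := by
  obtain ⟨a, b⟩ := C_mem hS hx
  rcases (mem_cls a).1 (b ▸ hy) with c | c
  · exact absurd c hxy
  · exact (c.2 B hB).resolve_left h

end Pool.Agent.H.MP_f8b95a_co
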