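import Mathlib

namespace Pool.Agent.H.MP_f8b95a_co

variable {V : Type*}

/-- The independent sets of `M` are the partial transversals of a finite family of sets. -/
def IsTransversal (M : Matroid V) : Prop :=
  ∃ (m : ℕ) (A : Fin m → Set V), ∀ I : Set V,
    M.Indep I ↔ ∃ f : I → Fin m, Function.Injective f ∧ ∀ x : I, x.1 ∈ A (f x)

/-- The independent sets of `M` are the vertex sets covered by a matching of a graph whose vertex
set is the whole type `V`. -/
def IsStrictMatching (M : Matroid V) : Prop :=
  ∃ G : SimpleGraph V, ∀ I : Set V,
    M.Indep I ↔ ∃ W : G.Subgraph, W.IsMatching ∧ I ⊆ W.verts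

/-- The series class of `e`: `e` together with all `f` such that `{e, f}` is a cocircuit. -/
def seriesClass (M : Matroid V) (e : V) : Set V := {f | f = e ∨ M.IsCocircuit {e, f}}

/-- The series classes of the elements that are not coloops. -/
def seriesClasses (M : Matroid V) : Set (Set V) := seriesClass M '' {e | ¬ M.IsColoop e}

end Pool.Agent.H.MP_f8b95a_co
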