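import Pool.Agent.H.MP_f8b95a_co.Suf

namespace Pool.Agent.H.MP_f8b95a_co
open Finset

variable {V : Type*} [DecidableEq V] [Fintype V] {M : Matroid V}

structure Data (M : Matroid V) where
  A : ℕ → Set V
  J : Finset ℕ
  γ : ℕ ⊕ Finset V → V
  rep : Finset V → V

noncomputable def J0 (M : Matroid V) (A : ℕ → Set V) (J : Finset ℕ) : Finset ℕ :=
  J \ (C M).biUnion (JS M A J)

noncomputable def Ev (M : Matroid V) : Finset (Finset V) := (C M).filter (fun S => Even S.card)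

structure Good (d : Data M) : Prop where
  hA : ∀ I : Finset V, M.Indep I ↔ ∃ f, Mt d.A I f
  hJ : ∀ B : Finset V, M.IsBase B → ∃ φ, Mt d.A (B \ K M) φ ∧ (B \ K M).image φ = d.J
  inj : Set.InjOn d.γ ((J0 M d.A d.J).disjSum (Ev M))
  mem : ∀ t ∈ (J0 M d.A d.J).disjSum (Ev M), d.γ t ∈ K M
  rep : ∀ S ∈ C M, d.rep S ∈ S
  ev : Even (K M \ ((J0 M d.A d.J).disjSum (Ev M)).image d.γ).card

noncomputable def Data.K0 (d : Data M) : Finset V :=
  K M \ ((J0 M d.A d.J).disjSum (Ev M)).image d.γ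

def Data.sp (d : Data M) (x : V) : Prop := cls M x ∈ Ev M ∧ x = d.rep (cls M x)

def Data.rel (d : Data M) (x y : V) : Prop :=
  (x ∉ K M ∧ y ∉ K M ∧ cls M x = cls M y ∧ ¬ d.sp x ∧ ¬ d.sp y) ∨
  (x ∉ K M ∧ ∃ j ∈ J0 M d.A d.J, y = d.γ (.inl j) ∧ x ∈ d.A j) ∨
  (x ∉ K M ∧ cls M x ∈ Ev M ∧ y = d.γ (.inr (cls M x))) ∨ (x ∈ d.K0 ∧ y ∈ d.K0)

def Data.G (d : Data M) : SimpleGraph V := SimpleGraph.fromRel d.rel

lemma JS_disj {A : ℕ → Set V} {J : Finset ℕ}
    (hJ : ∀ B : Finset V, M.IsBase B → ∃ φ, Mt A (B \ K M) φ ∧ (B \ K M).image φ = J)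
    {S T : Finset V} (hS : S ∈ C M) (hT : T ∈ C M) {j : ℕ} (h1 : j ∈ JS M A J S)
    (h2 : j ∈ JS M A J T) : S = T := by
  obtain ⟨B, hB, -⟩ := exists_base (M := M) (I := ∅) (by simp)
  obtain ⟨φ, f1, f2⟩ := hJ B hB
  obtain ⟨a1, a2⟩ := mem_JS.1 h1
  rw [← f2] at a1
  obtain ⟨x, hx, rfl⟩ := mem_image.1 a1
  rw [← (C_mem hS (a2 x (mem_sdiff.1 hx).2 (f1.2 x hx))).2,
    ← (C_mem hT ((mem_JS.1 h2).2 x (mem_sdiff.1 hx).2 (f1.2 x hx))).2]

lemma JS_card {A : ℕ → Set V} (hA : ∀ I : Finset V, M.Indep I ↔ ∃ f, Mt A I f) {J : Finset ℕ}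
    (hJ : ∀ B : Finset V, M.IsBase B → ∃ φ, Mt A (B \ K M) φ ∧ (B \ K M).image φ = J)
    {S : Finset V} (hS : S ∈ C M) : (JS M A J S).card = S.card - 1 := by
  obtain ⟨e, he⟩ := C_nonempty hS
  obtain ⟨ψ, h1, h2⟩ := JS_spec hA hJ hS he
  rw [← h2, card_image_of_injOn h1.1, card_erase_of_mem he]

lemma exists_good [Nonempty V] (h : IsTransversal M) (h1 : Even (rk M))
    (h2 : rk M ≤ 2 * (K M).card + ∑ S ∈ C M, 2 * ((S.card - 1) / 2)) : ∃ d : Data M, Good d := by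
  classical
  obtain ⟨A, hA⟩ := trans_iff h
  obtain ⟨J, hc, hJ⟩ := exists_J hA
  have c1 : (J0 M A J).card + ∑ S ∈ C M, (S.card - 1) = J.card := by
    rw [← sum_congr rfl (fun S hS => JS_card hA hJ hS), ← card_biUnion, J0,
      card_sdiff_add_card_eq_card]
    · exact biUnion_subset.2 fun S _ j hj => (mem_JS.1 hj).1
    · exact fun S hS T hT hne => disjoint_left.2 fun j a b => hne (JS_disj hJ hS hT a b)
  have c2 : ∑ S ∈ C M, (S.card - 1) = ∑ S ∈ C M, 2 * ((S.card - 1) / 2) + (Ev M).card := by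
    rw [Ev, card_filter, ← sum_add_distrib]
    refine sum_congr rfl fun S hS => ?_
    have := card_pos.2 (C_nonempty hS)
    split_ifs with a
    · obtain ⟨t, ht⟩ := a; omega
    · obtain ⟨t, ht⟩ := Nat.not_even_iff_odd.1 a; omega
  rw [← mul_sum] at c2 h2
  have c3 : ((J0 M A J).disjSum (Ev M)).card = (J0 M A J).card + (Ev M).card := card_disjSum _ _
  obtain ⟨γ, g1, g2⟩ := Set.Finite.exists_injOn_of_encard_le
    (s := (((J0 M A J).disjSum (Ev M) : Finset _) : Set (ℕ ⊕ Finset V))) (t := (K M : Set V))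
    (finite_toSet _) (by
      rw [Set.encard_coe_eq_coe_finsetCard, Set.encard_coe_eq_coe_finsetCard, Nat.cast_le]; omega)
  refine ⟨⟨A, J, γ, fun S => if h : S.Nonempty then h.choose else Classical.arbitrary V⟩,
    hA, hJ, g2, fun t ht => g1 ht, fun S hS => ?_, ?_⟩
  · simp only [C_nonempty hS, dif_pos]; exact (C_nonempty hS).choose_spec
  · have := card_sdiff_add_card_eq_card (image_subset_iff.2 (fun t ht => g1 ht) :
      ((J0 M A J).disjSum (Ev M)).image γ ⊆ K M)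
    rw [card_image_of_injOn g2] at this
    obtain ⟨t, ht⟩ := h1
    simp only
    rw [Nat.even_iff]; omega

variable {d : Data M}

lemma Good.m1 (h : Good d) {j : ℕ} (hj : j ∈ J0 M d.A d.J) : d.γ (.inl j) ∈ K M :=
  h.mem _ (inl_mem_disjSum.2 hj)

lemma Good.m2 (h : Good d) {S : Finset V} (hS : S ∈ Ev M) : d.γ (.inr S) ∈ K M :=
  h.mem _ (inr_mem_disjSum.2 hS)

lemma Good.adj (h : Good d) {x y : V} (hx : x ∉ K M) (ha : d.G.Adj x y) :
    (y ∉ K M ∧ cls M x = cls M y ∧ ¬ d.sp x ∧ ¬ d.sp y) ∨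
    (∃ j ∈ J0 M d.A d.J, y = d.γ (.inl j) ∧ x ∈ d.A j) ∨
    (cls M x ∈ Ev M ∧ y = d.γ (.inr (cls M x))) := by
  obtain ⟨-, a | a⟩ := (SimpleGraph.fromRel_adj _ _ _).1 ha
  · rcases a with a | a | a | a
    · exact Or.inl a.2
    · exact Or.inr (Or.inl a.2)
    · exact Or.inr (Or.inr a.2)
    · exact absurd (mem_sdiff.1 a.1).1 hx
  · rcases a with a | ⟨-, j, hj, a, -⟩ | a | a
    · exact Or.inl ⟨a.1, a.2.2.1.symm, a.2.2.2.2, a.2.2.2.1⟩
    · exact absurd (a ▸ h.m1 hj) hx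
    · exact absurd (a.2.2 ▸ h.m2 a.2.1) hx
    · exact absurd (mem_sdiff.1 a.2).1 hx

lemma Good.indep (h : Good d) {X : Finset V} (hX : Cov d.G X) : M.Indep X := by
  classical
  obtain ⟨σ, hσ⟩ := hX
  let P : V → Prop := fun x => ∃ j ∈ J0 M d.A d.J, σ x = d.γ (.inl j) ∧ x ∈ d.A j
  have hz : ∀ S ∈ C M, ∃ z ∈ S, z ∈ X → P z := by
    intro S hS
    by_contra c
    push Not at c
    have key : ∀ x ∈ S, (σ x ∈ S ∧ ¬ d.sp x ∧ ¬ d.sp (σ x)) ∨ (S ∈ Ev M ∧ σ x = d.γ (.inr S)) := by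
      intro x hx
      obtain ⟨x1, x2⟩ := C_mem hS hx
      rcases h.adj x1 (hσ x (c x hx).1).2.2 with a | a | a
      · exact Or.inl ⟨by rw [← x2, a.2.1]; exact self_mem_cls _, a.2.2⟩
      · exact absurd a (c x hx).2
      · exact Or.inr (x2 ▸ a)
    by_cases e : S ∈ Ev M
    · have r1 := h.rep S hS
      have sp1 : d.sp (d.rep S) := by unfold Data.sp; rw [(C_mem hS r1).2]; exact ⟨e, rfl⟩
      have r2 := ((key _ r1).resolve_left fun a => a.2.1 sp1).2
      have := even_of_inv (X := S.erase (d.rep S)) σ (fun x hx => by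
        obtain ⟨x1, x2⟩ := mem_erase.1 hx
        obtain ⟨-, b2, b3⟩ := hσ x (c x x2).1
        rcases key x x2 with a | a
        · exact ⟨mem_erase.2 ⟨fun q => a.2.2 (q ▸ sp1), a.1⟩, b2, b3.ne'⟩
        · exact absurd (by rw [← b2, a.2, ← r2, (hσ _ (c _ r1).1).2.1]) x1)
      rw [card_erase_of_mem r1] at this
      have p := card_pos.2 ⟨_, r1⟩
      obtain ⟨t, ht⟩ := (mem_filter.1 e).2
      obtain ⟨u, hu⟩ := this
      omega
    · refine e (mem_filter.2 ⟨hS, even_of_inv σ fun x hx => ?_⟩)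
      obtain ⟨-, b2, b3⟩ := hσ x (c x hx).1
      exact ⟨((key x hx).resolve_right fun a => e a.1).1, b2, b3.ne'⟩
  have hψ : ∀ S, ∃ ψ : V → ℕ, S ∈ C M → Set.InjOn ψ {x | x ∈ S ∧ x ∈ X ∧ ¬ P x} ∧
      ∀ x ∈ S, x ∈ X → ¬ P x → x ∈ d.A (ψ x) ∧ ψ x ∈ JS M d.A d.J S := by
    intro S
    by_cases hS : S ∈ C M
    · obtain ⟨z, z1, z2⟩ := hz S hS
      obtain ⟨ψ, p1, p2⟩ := JS_spec h.hA h.hJ hS z1
      have : ∀ x ∈ S, x ∈ X → ¬ P x → x ∈ S.erase z := fun x a b c =>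
        mem_erase.2 ⟨fun q => c (q ▸ z2 (q ▸ b)), a⟩
      exact ⟨ψ, fun _ => ⟨p1.1.mono fun x hx => this x hx.1 hx.2.1 hx.2.2, fun x a b c =>
        ⟨p1.2 x (this x a b c), p2 ▸ mem_image_of_mem _ (this x a b c)⟩⟩⟩
    · exact ⟨fun _ => 0, fun a => absurd a hS⟩
  choose ψ hψ using hψ
  have hI : M.Indep (X \ K M : Finset V) := by
    refine (h.hA _).2 ⟨fun x => if a : P x then a.choose else ψ (cls M x) x,
      fun x hx y hy e => ?_, fun x hx => ?_⟩
    · obtain ⟨x1, x2⟩ := mem_sdiff.1 hx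
      obtain ⟨y1, y2⟩ := mem_sdiff.1 hy
      have hx' := hψ _ (cls_mem_C x2)
      have hy' := hψ _ (cls_mem_C y2)
      by_cases a : P x <;> by_cases b : P y <;> simp only [a, b, dif_pos, dif_neg, not_false_iff] at e
      · rw [← (hσ x x1).2.1, a.choose_spec.2.1, e, ← b.choose_spec.2.1, (hσ y y1).2.1]
      · exact absurd (mem_biUnion.2 ⟨_, cls_mem_C y2, e ▸ (hy'.2 y (self_mem_cls y) y1 b).2⟩)
          (mem_sdiff.1 a.choose_spec.1).2
      · exact absurd (mem_biUnion.2 ⟨_, cls_mem_C x2, e ▸ (hx'.2 x (self_mem_cls x) x1 a).2⟩)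
          (mem_sdiff.1 b.choose_spec.1).2
      · have q := JS_disj h.hJ (cls_mem_C x2) (cls_mem_C y2) (hx'.2 x (self_mem_cls x) x1 a).2
          (e ▸ (hy'.2 y (self_mem_cls y) y1 b).2)
        rw [← q] at e
        exact hx'.1 ⟨self_mem_cls x, x1, a⟩ ⟨q ▸ self_mem_cls y, y1, b⟩ e
    · obtain ⟨x1, x2⟩ := mem_sdiff.1 hx
      by_cases a : P x <;> simp only [a, dif_pos, dif_neg, not_false_iff]
      · exact a.choose_spec.2.2
      · exact ((hψ _ (cls_mem_C x2)).2 x (self_mem_cls x) x1 a).1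
  obtain ⟨B, b1, b2⟩ := exists_base hI
  refine b1.indep.subset fun x hx => ?_
  by_cases a : x ∈ K M
  · exact K_sub b1 a
  · exact b2 (mem_sdiff.2 ⟨hx, a⟩)

lemma Good.cov (h : Good d) {B : Finset V} (hB : M.IsBase B) : ∃ X, Cov d.G X ∧ B ⊆ X := by
  classical
  obtain ⟨φ, f1, f2⟩ := h.hJ B hB
  have hadj : ∀ x y, x ≠ y → d.rel x y → d.G.Adj x y := fun x y a b =>
    (SimpleGraph.fromRel_adj _ _ _).2 ⟨a, Or.inl b⟩
  let S' : Finset V → Finset V := fun S => S.filter (fun x => x ∈ B ∧ φ x ∈ JS M d.A d.J S)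
  have cS : ∀ S ∈ C M, (S' S).card = S.card - 1 := by
    intro S hS
    have hs : S' S ⊆ B \ K M := fun x hx =>
      mem_sdiff.2 ⟨(mem_filter.1 hx).2.1, (C_mem hS (mem_filter.1 hx).1).1⟩
    rw [← JS_card h.hA h.hJ hS, ← card_image_of_injOn (f1.1.mono (coe_subset.2 hs))]
    congr 1
    refine Subset.antisymm (image_subset_iff.2 fun x hx => (mem_filter.1 hx).2.2) fun j hj => ?_
    obtain ⟨j1, j2⟩ := mem_JS.1 hj
    rw [← f2] at j1
    obtain ⟨x, hx, rfl⟩ := mem_image.1 j1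
    exact mem_image_of_mem _ (mem_filter.2 ⟨j2 x (mem_sdiff.1 hx).2 (f1.2 x hx),
      (mem_sdiff.1 hx).1, hj⟩)
  let Pc : Finset V → Finset V := fun S => if S ∈ Ev M then insert (d.γ (.inr S)) (S' S) else S' S
  have mPc : ∀ S y, y ∈ Pc S ↔ y ∈ S' S ∨ (S ∈ Ev M ∧ y = d.γ (.inr S)) := by
    intro S y
    simp only [Pc]
    split_ifs with a
    · simp only [mem_insert, a, true_and]; exact or_comm
    · simp [a]
  have hclq : ∀ S ∈ C M, ∀ T ⊆ S, (S ∈ Ev M → d.rep S ∉ T) → Even T.card → Cov d.G T := by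
    intro S hS T hT hr he
    have nsp : ∀ x ∈ T, ¬ d.sp x := fun x hx q => by
      unfold Data.sp at q
      rw [(C_mem hS (hT hx)).2] at q
      exact hr q.1 (q.2 ▸ hx)
    exact Cov.clique' T he fun x hx y hy hxy => hadj x y hxy (Or.inl ⟨(C_mem hS (hT hx)).1,
      (C_mem hS (hT hy)).1, by rw [(C_mem hS (hT hx)).2, (C_mem hS (hT hy)).2], nsp x hx, nsp y hy⟩)
  have cPc : ∀ S ∈ C M, Cov d.G (Pc S) := by
    intro S hS
    have p := card_pos.2 (C_nonempty hS)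
    have q := cS S hS
    simp only [Pc]
    split_ifs with a
    · obtain ⟨k, hk⟩ := (mem_filter.1 a).2
      have : ∃ t ∈ S' S, d.rep S ∉ (S' S).erase t := by
        by_cases b : d.rep S ∈ S' S
        · exact ⟨_, b, notMem_erase _ _⟩
        · obtain ⟨t, ht⟩ := card_pos.1 (show 0 < (S' S).card by omega)
          exact ⟨t, ht, fun c => b (mem_of_mem_erase c)⟩
      obtain ⟨t, t1, t2⟩ := this
      obtain ⟨t3, t4⟩ := C_mem hS (mem_filter.1 t1).1
      have e : insert (d.γ (.inr S)) (S' S) = {t, d.γ (.inr S)} ∪ (S' S).erase t := by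
        ext y; simp only [mem_insert, mem_union, mem_singleton, mem_erase]
        by_cases c : y = t
        · simp [c, t1]
        · simp [c]
      rw [e]
      refine (Cov.pair (hadj _ _ (fun c : t = d.γ (.inr S) => t3 (by rw [c]; exact h.m2 a))
        (Or.inr (Or.inr (Or.inl ⟨t3, t4.symm ▸ a, by rw [t4]⟩))))).union
        (hclq S hS _ ((erase_subset _ _).trans (filter_subset _ _)) (fun _ => t2) ?_) ?_
      · rw [card_erase_of_mem t1, Nat.even_iff]; omega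
      · simp only [disjoint_insert_left, disjoint_singleton_left, notMem_erase, not_false_iff,
          true_and]
        exact fun c => (C_mem hS (mem_filter.1 (mem_of_mem_erase c)).1).1 (h.m2 a)
    · refine hclq S hS _ (filter_subset _ _) (fun b => absurd b a) ?_
      have : ¬ Even S.card := fun b => a (mem_filter.2 ⟨hS, b⟩)
      rw [Nat.even_iff] at this ⊢; omega
  have c1 : Cov d.G ((C M).biUnion Pc) := by
    refine Cov.biUnion _ _ cPc fun S hS T hT hne => disjoint_left.2 fun y a b => hne ?_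
    rcases (mPc _ _).1 a with a | a <;> rcases (mPc _ _).1 b with b | b
    · rw [← (C_mem hS (mem_filter.1 a).1).2, (C_mem hT (mem_filter.1 b).1).2]
    · exact absurd (b.2 ▸ h.m2 b.1) (C_mem hS (mem_filter.1 a).1).1
    · exact absurd (a.2 ▸ h.m2 a.1) (C_mem hT (mem_filter.1 b).1).1
    · exact Sum.inr.inj (h.inj (mem_coe.2 (inr_mem_disjSum.2 a.1))
        (mem_coe.2 (inr_mem_disjSum.2 b.1)) (a.2.symm.trans b.2))
  set Q := (B \ K M).filter (fun x => φ x ∈ J0 M d.A d.J) with hQ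
  have c2 : Cov d.G (Q.biUnion (fun x => {x, d.γ (.inl (φ x))})) := by
    refine Cov.biUnion _ _ (fun x hx => ?_) fun x hx y hy hne => disjoint_left.2 fun z a b => hne ?_
    · obtain ⟨x1, x2⟩ := mem_filter.1 hx
      exact Cov.pair (hadj _ _ (fun c => (mem_sdiff.1 x1).2 (c ▸ h.m1 x2))
        (Or.inr (Or.inl ⟨(mem_sdiff.1 x1).2, _, x2, rfl, f1.2 x x1⟩)))
    · obtain ⟨x1, x2⟩ := mem_filter.1 hx
      obtain ⟨y1, y2⟩ := mem_filter.1 hy
      simp only [mem_insert, mem_singleton] at a b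
      rcases a with a | a <;> rcases b with b | b
      · exact a.symm.trans b
      · exact absurd (a.symm.trans b ▸ h.m1 y2) (mem_sdiff.1 x1).2
      · exact absurd (b.symm.trans a ▸ h.m1 x2) (mem_sdiff.1 y1).2
      · exact f1.1 x1 y1 (Sum.inl.inj (h.inj (mem_coe.2 (inl_mem_disjSum.2 x2))
          (mem_coe.2 (inl_mem_disjSum.2 y2)) (a.symm.trans b)))
  have c3 : Cov d.G d.K0 := Cov.clique' _ h.ev fun x hx y hy hxy =>
    hadj x y hxy (Or.inr (Or.inr (Or.inr ⟨hx, hy⟩)))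
  refine ⟨_, (c1.union c2 ?_).union c3 ?_, fun x hx => ?_⟩
  · refine disjoint_left.2 fun y a b => ?_
    obtain ⟨S, hS, a⟩ := mem_biUnion.1 a
    obtain ⟨x, hx, b⟩ := mem_biUnion.1 b
    obtain ⟨x1, x2⟩ := mem_filter.1 hx
    simp only [mem_insert, mem_singleton] at b
    rcases (mPc _ _).1 a with a | a <;> rcases b with b | b
    · exact (mem_sdiff.1 x2).2 (mem_biUnion.2 ⟨S, hS, b ▸ (mem_filter.1 a).2.2⟩)
    · exact (C_mem hS (mem_filter.1 a).1).1 (b ▸ h.m1 x2)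
    · exact (mem_sdiff.1 x1).2 (b.symm.trans a.2 ▸ h.m2 a.1)
    · exact Sum.inr_ne_inl (h.inj (mem_coe.2 (inr_mem_disjSum.2 a.1))
        (mem_coe.2 (inl_mem_disjSum.2 x2)) (a.2.symm.trans b))
  · refine disjoint_left.2 fun y a b => ?_
    obtain ⟨b1, b2⟩ := mem_sdiff.1 b
    rcases mem_union.1 a with a | a
    · obtain ⟨S, hS, a⟩ := mem_biUnion.1 a
      rcases (mPc _ _).1 a with a | a
      · exact (C_mem hS (mem_filter.1 a).1).1 b1
      · exact b2 (mem_image.2 ⟨_, inr_mem_disjSum.2 a.1, a.2.symm⟩)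
    · obtain ⟨x, hx, a⟩ := mem_biUnion.1 a
      obtain ⟨x1, x2⟩ := mem_filter.1 hx
      simp only [mem_insert, mem_singleton] at a
      rcases a with a | a
      · exact (mem_sdiff.1 x1).2 (a ▸ b1)
      · exact b2 (mem_image.2 ⟨_, inl_mem_disjSum.2 x2, a.symm⟩)
  · simp only [mem_union]
    by_cases a : x ∈ K M
    · by_cases b : x ∈ d.K0
      · exact Or.inr b
      left
      have : x ∈ ((J0 M d.A d.J).disjSum (Ev M)).image d.γ := by
        by_contra c; exact b (mem_sdiff.2 ⟨a, c⟩)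
      obtain ⟨t, ht, rfl⟩ := mem_image.1 this
      rcases t with j | S
      · have j1 := inl_mem_disjSum.1 ht
        have j2 := (mem_sdiff.1 j1).1
        rw [← f2] at j2
        obtain ⟨y, hy, rfl⟩ := mem_image.1 j2
        exact Or.inr (mem_biUnion.2 ⟨y, mem_filter.2 ⟨hy, j1⟩, by simp⟩)
      · have j1 := inr_mem_disjSum.1 ht
        exact Or.inl (mem_biUnion.2 ⟨S, (mem_filter.1 j1).1, (mPc _ _).2 (Or.inr ⟨j1, rfl⟩)⟩)
    · left
      have x1 : x ∈ B \ K M := mem_sdiff.2 ⟨hx, a⟩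
      by_cases b : φ x ∈ J0 M d.A d.J
      · exact Or.inr (mem_biUnion.2 ⟨x, mem_filter.2 ⟨x1, b⟩, by simp⟩)
      · have : φ x ∈ (C M).biUnion (JS M d.A d.J) := by
          by_contra c; exact b (mem_sdiff.2 ⟨f2 ▸ mem_image_of_mem _ x1, c⟩)
        obtain ⟨S, hS, s1⟩ := mem_biUnion.1 this
        exact Or.inl (mem_biUnion.2 ⟨S, hS, (mPc _ _).2 (Or.inl (mem_filter.2
          ⟨(mem_JS.1 s1).2 x a (f1.2 x x1), hx, s1⟩))⟩)

omit [DecidableEq V] in
theorem main (h : IsTransversal M) :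
    IsStrictMatching M ↔ Even M.eRank.toNat ∧
      M.eRank.toNat ≤ 2 * M.coloops.ncard + ∑ᶠ S ∈ seriesClasses M, 2 * ((S.ncard - 1) / 2) := by
  classical
  have e1 : M.coloops = (K M : Set V) := by
    ext x; simp [K, Matroid.isColoop_iff_mem_coloops]
  have e2 : seriesClasses M = (fun S : Finset V => (S : Set V)) '' (C M : Set (Finset V)) := by
    rw [seriesClasses, C, coe_image, Set.image_image]
    congr 1
    · ext e x; simp [cls]
    · ext e; simp [K]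
  rw [e1, e2, finsum_mem_image (coe_injective.injOn), finsum_mem_coe_finset]
  simp only [Set.ncard_coe_finset]
  constructor
  · rintro ⟨G, hG⟩
    exact nec (G := G) fun I => by rw [hG, cov_iff]; simp only [coe_subset]
  · rintro ⟨h1, h2⟩
    rcases isEmpty_or_nonempty V with hV | hV
    · refine ⟨⊥, fun I => ?_⟩
      rw [Subsingleton.elim I ∅]
      exact ⟨fun _ => ⟨⊥, fun v => hV.elim v, Set.empty_subset _⟩, fun _ => M.empty_indep⟩
    obtain ⟨d, hd⟩ := exists_good h h1 h2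
    refine ⟨d.G, fun I => ?_⟩
    rw [cov_iff]
    constructor
    · intro hI
      obtain ⟨B, b1, b2⟩ := exists_base (I := I.toFinset) (by simpa using hI)
      obtain ⟨X, x1, x2⟩ := hd.cov b1
      exact ⟨X, x1, fun x hx => x2 (b2 (Set.mem_toFinset.2 hx))⟩
    · rintro ⟨X, x1, x2⟩
      exact (hd.indep x1).subset x2

end Pool.Agent.H.MP_f8b95a_co
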