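import Pool.Agent.H.MP_f8b95a_co.Base

namespace Pool.Agent.H.MP_f8b95a_co
open Finset

variable {V : Type*} [DecidableEq V] [Fintype V] {M : Matroid V} {G : SimpleGraph V}

lemma cov_base (hG : ∀ I : Finset V, M.Indep I ↔ ∃ X, Cov G X ∧ I ⊆ X) {B : Finset V}
    (hB : M.IsBase B) : Cov G B := by
  obtain ⟨X, h1, h2⟩ := (hG B).1 hB.indep
  have := indep_card ((hG X).2 ⟨X, h1, subset_rfl⟩)
  rwa [eq_of_subset_of_card_le h2 (by rw [base_card hB]; exact this)]

lemma adj_cls (hG : ∀ I : Finset V, M.Indep I ↔ ∃ X, Cov G X ∧ I ⊆ X) {x y : V} (hx : x ∉ K M)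
    (hy : y ∉ K M) (h : G.Adj x y) : y ∈ cls M x := by
  refine (mem_cls hx).2 (Or.inr ⟨hy, fun B hB => ?_⟩)
  by_contra c
  push Not at c
  have hd : Disjoint B {x, y} := by simp [c.1, c.2]
  have := indep_card ((hG _).2 ⟨_, (cov_base hG hB).union (Cov.pair h) hd, subset_rfl⟩)
  rw [card_union_of_disjoint hd, base_card hB, card_pair h.ne] at this
  omega

lemma not_full (hG : ∀ I : Finset V, M.Indep I ↔ ∃ X, Cov G X ∧ I ⊆ X) {S : Finset V}
    (hS : S ∈ C M) (σ : V → V) (hσ : ∀ x ∈ S, σ x ∈ S ∧ σ (σ x) = x ∧ G.Adj x (σ x)) : False := by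
  have key : ∀ k : ℕ, ∃ (B : Finset V) (τ : V → V), M.IsBase B ∧
      (∀ x ∈ B, τ x ∈ B ∧ τ (τ x) = x ∧ G.Adj x (τ x)) ∧ (∃ u ∈ S, u ∉ B) ∧
      k ≤ (S.filter (fun y => y ∈ B ∧ τ y = σ y)).card := by
    intro k
    induction k with
    | zero =>
      obtain ⟨u, hu⟩ := C_nonempty hS
      obtain ⟨B, b1, b2⟩ := not_mem_K.1 (C_mem hS hu).1
      obtain ⟨τ, hτ⟩ := cov_base hG b1
      exact ⟨B, τ, b1, hτ, ⟨u, hu, b2⟩, Nat.zero_le _⟩
    | succ k ih =>
      obtain ⟨B, τ, hB, hτ, ⟨u, hu, huB⟩, hk⟩ := ih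
      obtain ⟨s1, s2, s3⟩ := hσ u hu
      have vB : σ u ∈ B := C_two hS hB hu s1 s3.ne' huB
      obtain ⟨t1, t2, t3⟩ := hτ _ vB
      set v := σ u with hv
      set x := τ v with hx
      have xu : x ≠ u := fun e => huB (e ▸ t1)
      have vu : v ≠ u := s3.ne'
      have xv : x ≠ v := t3.ne'
      set B' := insert u (B.erase x) with hB'
      set τ' : V → V := fun y => if y = u then v else if y = v then u else τ y with hτ'
      have hcov : ∀ y ∈ B', τ' y ∈ B' ∧ τ' (τ' y) = y ∧ G.Adj y (τ' y) := by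
        intro y hy
        by_cases a : y = u
        · subst a
          simp [hτ', hB', vu, vB, xv.symm, s3]
        by_cases b : y = v
        · rw [b]
          simp [hτ', hB', vu, s3.symm]
        have y1 := mem_erase.1 ((mem_insert.1 hy).resolve_left a)
        obtain ⟨c1, c2, c3⟩ := hτ y y1.2
        have d1 : τ y ≠ u := fun e => huB (e ▸ c1)
        have d2 : τ y ≠ v := fun e => y1.1 (by rw [hx, ← e, c2])
        have d3 : τ y ≠ x := fun e => b (by rw [← c2, e, t2])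
        simp [hτ', hB', a, b, d1, d2, d3, c1, c2, c3]
      have hb : M.IsBase B' := base_of_card ((hG _).2 ⟨_, ⟨τ', hcov⟩, subset_rfl⟩) (by
        rw [hB', card_insert_of_notMem (fun h => huB (mem_erase.1 h).2), card_erase_of_mem t1,
          base_card hB]
        omega)
      have xB : x ∉ B' := by simp [hB', xu]
      have xS : x ∈ S := by
        obtain ⟨e1, e2⟩ := C_mem hS s1
        rw [← e2]
        exact adj_cls hG e1 (not_mem_K.2 ⟨B', hb, xB⟩) t3
      refine ⟨B', τ', hb, hcov, ⟨x, xS, xB⟩, ?_⟩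
      have hsub : insert u (S.filter (fun y => y ∈ B ∧ τ y = σ y)) ⊆
          S.filter (fun y => y ∈ B' ∧ τ' y = σ y) := by
        intro y hy
        rcases mem_insert.1 hy with rfl | hy
        · simp [hu, hB', hτ', hv]
        obtain ⟨y1, y2, y3⟩ := mem_filter.1 hy
        have a : y ≠ u := fun e => huB (e ▸ y2)
        have b : y ≠ v := fun e => xu (by rw [hx, ← e, y3, e, s2])
        have c : y ≠ x := fun e => a (by rw [← (hσ y y1).2.1, ← y3, e, t2, s2])
        simp [y1, y2, y3, hB', hτ', a, b, c]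
      have := card_le_card hsub
      rw [card_insert_of_notMem (fun h => huB (mem_filter.1 h).2.1)] at this
      omega
  obtain ⟨B, τ, -, -, -, h⟩ := key (S.card + 1)
  have := card_filter_le S (fun y => y ∈ B ∧ τ y = σ y)
  omega

lemma nec (hG : ∀ I : Finset V, M.Indep I ↔ ∃ X, Cov G X ∧ I ⊆ X) :
    Even (rk M) ∧ rk M ≤ 2 * (K M).card + ∑ S ∈ C M, 2 * ((S.card - 1) / 2) := by
  obtain ⟨B, hB, -⟩ := exists_base (M := M) (I := ∅) (by simp)
  obtain ⟨σ, hσ⟩ := cov_base hG hB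
  rw [← base_card hB]
  refine ⟨even_of_inv σ fun x hx => ⟨(hσ x hx).1, (hσ x hx).2.1, (hσ x hx).2.2.ne'⟩, ?_⟩
  have hsub : B ⊆ (K M ∪ (K M).image σ) ∪
      (C M).biUnion (fun S => S.filter (fun x => x ∈ B ∧ σ x ∉ K M)) := by
    intro x hx
    simp only [mem_union]
    by_cases a : x ∈ K M
    · exact Or.inl (Or.inl a)
    by_cases b : σ x ∈ K M
    · exact Or.inl (Or.inr (mem_image.2 ⟨_, b, (hσ x hx).2.1⟩))
    exact Or.inr (mem_biUnion.2 ⟨_, cls_mem_C a, mem_filter.2 ⟨self_mem_cls x, hx, b⟩⟩)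
  have h1 := (card_le_card hsub).trans (card_union_le _ _)
  have h2 := card_union_le (K M) ((K M).image σ)
  have h3 := card_image_le (s := K M) (f := σ)
  have h4 : ((C M).biUnion (fun S => S.filter (fun x => x ∈ B ∧ σ x ∉ K M))).card
      ≤ ∑ S ∈ C M, 2 * ((S.card - 1) / 2) := by
    refine card_biUnion_le.trans (sum_le_sum fun S hS => ?_)
    have hcl : ∀ x ∈ S.filter (fun x => x ∈ B ∧ σ x ∉ K M),
        σ x ∈ S.filter (fun x => x ∈ B ∧ σ x ∉ K M) ∧ σ (σ x) = x ∧ G.Adj x (σ x) := by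
      intro x hx
      obtain ⟨x1, x2, x3⟩ := mem_filter.1 hx
      obtain ⟨c1, c2, c3⟩ := hσ x x2
      obtain ⟨e1, e2⟩ := C_mem hS x1
      exact ⟨mem_filter.2 ⟨e2 ▸ adj_cls hG e1 x3 c3, c1, c2.symm ▸ e1⟩, c2, c3⟩
    have ev := even_of_inv σ fun x hx => ⟨(hcl x hx).1, (hcl x hx).2.1, (hcl x hx).2.2.ne'⟩
    have lt : (S.filter (fun x => x ∈ B ∧ σ x ∉ K M)).card < S.card :=
      card_lt_card ⟨filter_subset _ _, fun h => not_full hG hS σ (fun x hx =>
        ⟨(mem_filter.1 (hcl x (h hx)).1).1, (hcl x (h hx)).2⟩)⟩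
    obtain ⟨t, ht⟩ := ev
    omega
  omega

end Pool.Agent.H.MP_f8b95a_co
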