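import Pool.Agent.H.MP_f8b95a_co.Nec

namespace Pool.Agent.H.MP_f8b95a_co
open Finset

variable {V : Type*} [DecidableEq V] [Fintype V] {M : Matroid V}

lemma card_split {S B : Finset V} (hS : S ∈ C M) (hB : M.IsBase B) :
    (B \ (K M ∪ S)).card + (K M).card + (B ∩ S).card = rk M := by
  have hd : Disjoint (K M) (B ∩ S) := disjoint_left.2 fun x a b => (C_mem hS (mem_inter.1 b).2).1 a
  rw [← base_card hB, ← card_sdiff_add_card_inter B (K M ∪ S), add_assoc,
    ← card_union_of_disjoint hd, inter_union_distrib_left, inter_eq_right.2 (K_sub hB)]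

lemma card_inter_ge {S B : Finset V} (hS : S ∈ C M) (hB : M.IsBase B) :
    S.card ≤ (B ∩ S).card + 1 := by
  have h1 : (S \ B).card ≤ 1 := card_le_one.2 fun x hx y hy => by
    by_contra c
    exact (mem_sdiff.1 hx).2 (C_two hS hB (mem_sdiff.1 hy).1 (mem_sdiff.1 hx).1 c (mem_sdiff.1 hy).2)
  have := card_sdiff_add_card_inter S B
  rw [inter_comm]; omega

lemma card_inter_lt {S B : Finset V} {e : V} (he : e ∈ S) (h : e ∉ B) : (B ∩ S).card < S.card :=
  card_lt_card ⟨inter_subset_right, fun c => h (mem_inter.1 (c he)).1⟩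

lemma exists_J {A : ℕ → Set V} (hA : ∀ I : Finset V, M.Indep I ↔ ∃ f, Mt A I f) :
    ∃ J : Finset ℕ, J.card + (K M).card = rk M ∧
      ∀ B : Finset V, M.IsBase B → ∃ φ, Mt A (B \ K M) φ ∧ (B \ K M).image φ = J := by
  have hc : ∀ B : Finset V, M.IsBase B → (B \ K M).card + (K M).card = rk M := fun B hB => by
    rw [card_sdiff_add_card_eq_card (K_sub hB), base_card hB]
  have hi : ∀ B : Finset V, M.IsBase B → ∃ f, Mt A (B \ K M) f := fun B hB =>
    (hA _).1 (hB.indep.subset (coe_subset.2 sdiff_subset))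
  have hs : ∀ B : Finset V, B \ K M ⊆ (K M)ᶜ := fun B x hx => mem_compl.2 (mem_sdiff.1 hx).2
  obtain ⟨B0, hB0, -⟩ := exists_base (M := M) (I := ∅) (by simp)
  obtain ⟨φ0, h0⟩ := hi B0 hB0
  refine ⟨(B0 \ K M).image φ0, by rw [card_image_of_injOn h0.1, hc B0 hB0], fun B hB => ?_⟩
  obtain ⟨ψ, hψ⟩ := hi B hB
  obtain ⟨f, f1, f2⟩ := md (hs B0) h0 (fun I hI f hf => by
    obtain ⟨B1, b1, b2⟩ := exists_base ((hA I).2 ⟨f, hf⟩)
    have : I ⊆ B1 \ K M := fun x hx => mem_sdiff.2 ⟨b2 hx, mem_compl.1 (hI hx)⟩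
    have := card_le_card this
    have := hc B1 b1
    have := hc B0 hB0
    omega) (hs B) hψ
  refine ⟨f, f1, eq_of_subset_of_card_le (image_subset_iff.2 f2) ?_⟩
  rw [card_image_of_injOn h0.1, card_image_of_injOn f1.1]
  have := hc B hB
  have := hc B0 hB0
  omega

open Classical in
noncomputable def JS (M : Matroid V) (A : ℕ → Set V) (J : Finset ℕ) (S : Finset V) : Finset ℕ :=
  J.filter (fun j => ∀ x, x ∉ K M → x ∈ A j → x ∈ S)

lemma mem_JS {A : ℕ → Set V} {J : Finset ℕ} {S : Finset V} {j : ℕ} :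
    j ∈ JS M A J S ↔ j ∈ J ∧ ∀ x, x ∉ K M → x ∈ A j → x ∈ S := by
  classical
  rw [JS, mem_filter]

lemma JS_spec {A : ℕ → Set V} (hA : ∀ I : Finset V, M.Indep I ↔ ∃ f, Mt A I f) {J : Finset ℕ}
    (hJ : ∀ B : Finset V, M.IsBase B → ∃ φ, Mt A (B \ K M) φ ∧ (B \ K M).image φ = J)
    {S : Finset V} (hS : S ∈ C M) {e : V} (he : e ∈ S) :
    ∃ ψ, Mt A (S.erase e) ψ ∧ (S.erase e).image ψ = JS M A J S := by
  obtain ⟨eK, ecls⟩ := C_mem hS he
  obtain ⟨B, hB, eB⟩ := not_mem_K.1 eK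
  obtain ⟨φ, h1, h2⟩ := hJ B hB
  have hsub : S.erase e ⊆ B \ K M := fun x hx =>
    mem_sdiff.2 ⟨C_two hS hB he (mem_erase.1 hx).2 (mem_erase.1 hx).1 eB,
      (C_mem hS (mem_erase.1 hx).2).1⟩
  refine ⟨φ, ⟨h1.1.mono (coe_subset.2 hsub), fun x hx => h1.2 x (hsub hx)⟩, ?_⟩
  ext j
  rw [mem_JS]
  constructor
  · intro hj
    obtain ⟨x0, hx0, rfl⟩ := mem_image.1 hj
    refine ⟨h2 ▸ mem_image_of_mem _ (hsub hx0), fun x xK xA => ?_⟩
    by_contra xS
    have hs2 : B \ (K M ∪ S) ⊆ B \ K M := sdiff_subset_sdiff subset_rfl subset_union_left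
    have hs : ∀ B : Finset V, B \ (K M ∪ S) ⊆ (K M ∪ S)ᶜ :=
      fun B x hx => mem_compl.2 (mem_sdiff.1 hx).2
    have hmax : ∀ I ⊆ (K M ∪ S)ᶜ, ∀ f, Mt A I f → I.card ≤ (B \ (K M ∪ S)).card := by
      intro I hI f hf
      obtain ⟨B1, b1, b2⟩ := exists_base ((hA I).2 ⟨f, hf⟩)
      have : I ⊆ B1 \ (K M ∪ S) := fun x hx => mem_sdiff.2 ⟨b2 hx, mem_compl.1 (hI hx)⟩
      have := card_le_card this
      have := card_split hS b1
      have := card_split hS hB
      have := card_inter_ge hS b1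
      have := card_inter_lt he eB
      omega
    have : ∃ B2 : Finset V, M.IsBase B2 ∧ e ∉ B2 ∧ x ∉ B2 := by
      by_contra c
      push Not at c
      refine xS (ecls ▸ (mem_cls eK).2 (Or.inr ⟨xK, fun B2 b2 => ?_⟩))
      by_cases d : e ∈ B2
      · exact Or.inl d
      · exact Or.inr (c B2 b2 d)
    obtain ⟨B2, b2, e2, x2⟩ := this
    obtain ⟨ψ, hψ⟩ := (hA (B2 \ (K M ∪ S))).1 (b2.indep.subset (coe_subset.2 sdiff_subset))
    obtain ⟨f, f1, f2⟩ := md (hs B) ⟨h1.1.mono (coe_subset.2 hs2), fun x hx => h1.2 x (hs2 hx)⟩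
      hmax (hs B2) hψ
    have xI : x ∉ B2 \ (K M ∪ S) := fun h => x2 (mem_sdiff.1 h).1
    have hne : ∀ y ∈ B2 \ (K M ∪ S), f y ≠ φ x0 := fun y hy h => by
      obtain ⟨z, hz, hz'⟩ := mem_image.1 (f2 y hy)
      have := h1.1 (hs2 hz) (hsub hx0) (hz'.trans h)
      exact (mem_sdiff.1 hz).2 (mem_union_right _ (this ▸ (mem_erase.1 hx0).2))
    have := hmax (insert x (B2 \ (K M ∪ S))) (insert_subset (by simp [xK, xS]) (hs B2))
      (fun y => if y = x then φ x0 else f y) ⟨fun y hy z hz h => by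
        have hy' := mem_insert.1 hy
        have hz' := mem_insert.1 hz
        by_cases a : y = x <;> by_cases b : z = x <;> simp only [a, b, if_true, if_false] at h
        · rw [a, b]
        · exact absurd h.symm (hne z (hz'.resolve_left b))
        · exact absurd h (hne y (hy'.resolve_left a))
        · exact f1.1 (hy'.resolve_left a) (hz'.resolve_left b) h, fun y hy => by
        by_cases a : y = x
        · simpa [a] using xA
        · simpa [a] using f1.2 y ((mem_insert.1 hy).resolve_left a)⟩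
    rw [card_insert_of_notMem xI] at this
    have := card_split hS b2
    have := card_split hS hB
    have := card_inter_ge hS hB
    have := card_inter_lt he e2
    omega
  · rintro ⟨j1, j2⟩
    rw [← h2] at j1
    obtain ⟨x, hx, rfl⟩ := mem_image.1 j1
    exact mem_image_of_mem _ (mem_erase.2 ⟨fun h => eB (h ▸ (mem_sdiff.1 hx).1),
      j2 x (mem_sdiff.1 hx).2 (h1.2 x hx)⟩)

end Pool.Agent.H.MP_f8b95a_co
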